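import Mathlib
import Pool.Agent.Lib.MP_c40ba2_an.Defs
import Pool.Agent.Lib.MP_c40ba2_an.Final

set_option autoImplicit false

open Metric Pool.Agent.Lib.MP_c40ba2_an

namespace Pool.Agent.Results.MP_c40ba2_an.Normality

/-- For all real `α ≠ 0` and `β > 0`, in particular for all real `α ≥ 1`, `β ≥ 1`, the class
`T(α, β)` is a normal family in the unit disc. -/
theorem result : ∀ α β : ℝ, α ≠ 0 → 0 < β → IsNormalFamily (classT α β) (ball (0 : ℂ) 1) :=
  fun _ _ hα hβ => normality hα hβ

end Pool.Agent.Results.MP_c40ba2_an.Normality
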